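import Pool.Agent.H224R2.Mah.Defs

/-!
# A6: log-subharmonicity and the comparison `|∂_x S| ≤ (2/π) ΔS/(2m)`
-/

namespace Pool.Agent.H224R2.Mah

open MeasureTheory Set Filter Topology
open scoped ENNReal RealInnerProductSpace

private lemma a6_re (h w : ℂ) (hw : w ≠ 0) :
    ((starRingEnd ℂ) h * w⁻¹).re = (h * w).re * ‖w⁻¹‖ ^ 2 := by
  have h1 : ‖w⁻¹‖ ^ 2 = (Complex.normSq w)⁻¹ := by
    rw [← Complex.normSq_eq_norm_sq, Complex.normSq_inv]
  rw [h1, Complex.mul_re, Complex.mul_re, Complex.inv_re, Complex.inv_im, Complex.conj_re,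
    Complex.conj_im]
  field_simp

private lemma a6_normSq (h w : ℂ) :
    ((starRingEnd ℂ) h * w).re ^ 2 + ((starRingEnd ℂ) h * w).im ^ 2 = ‖h‖ ^ 2 * ‖w‖ ^ 2 := by
  have h1 : ∀ z : ℂ, z.re ^ 2 + z.im ^ 2 = ‖z‖ ^ 2 := by
    intro z
    rw [← Complex.normSq_eq_norm_sq, Complex.normSq_apply]
    ring
  rw [h1, norm_mul, RCLike.norm_conj, mul_pow]

/-- A6 from the statements A1, A2, A3b, A4, A5. -/
theorem A6_compare_of
    (hA1 : ∀ {ζ : ℂ}, ‖ζ‖ < 1 → HasDerivAt U (U' ζ) ζ ∧ DifferentiableAt ℂ U' ζ ∧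
      ζ * U' ζ = ((8 / Real.pi ^ 2 : ℝ) : ℂ) * Complex.arctan ζ)
    (hA2 : (∀ ζ : ℂ, ‖ζ‖ < 1 → 0 < (U' ζ).re) ∧ InjOn U (Metric.ball 0 1))
    (hA3 : ∀ {ζ : ℂ}, ‖ζ‖ < 1 → (0 < ζ.re → 0 < (Complex.arctan ζ).re ∧ 0 < (U ζ).re) ∧
      |(Complex.arctan ζ).re| < Real.pi / 4 ∧ Real.sign (U ζ).re = Real.sign ζ.re ∧
      Real.sign (Complex.arctan ζ).re = Real.sign ζ.re)
    (hA4 : IsOpen PP ∧ (∀ u ∈ PP, ‖hh u‖ < 1 ∧ U (hh u) = u ∧
      HasDerivAt hh (U' (hh u))⁻¹ u) ∧ (∀ ζ : ℂ, ‖ζ‖ < 1 → U ζ ∈ PP ∧ hh (U ζ) = ζ) ∧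
      ∀ r : ℝ, r < 1 → IsCompact {u | u ∈ PP ∧ ‖hh u‖ ≤ r})
    (hA5 : ∀ {m : ℕ}, 2 ≤ m → ContDiffOn ℝ 3 (SS m) PP ∧ ∀ u ∈ PP,
      dx (SS m) u = 2 * m * ‖hh u‖ ^ (2 * m - 2) * ((starRingEnd ℂ) (hh u) * (U' (hh u))⁻¹).re ∧
      dy (SS m) u = -(2 * m * ‖hh u‖ ^ (2 * m - 2) * ((starRingEnd ℂ) (hh u) * (U' (hh u))⁻¹).im) ∧
      lap (SS m) u = (2 * m) ^ 2 * ‖hh u‖ ^ (2 * m - 2) * ‖(U' (hh u))⁻¹‖ ^ 2)
    {m : ℕ} (hm : 2 ≤ m) : PSH PP (SS m) ∧ ∀ u ∈ PP,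
    |dx (SS m) u| = Real.sign u.re * dx (SS m) u ∧ (0 < u.re → 0 < dx (SS m) u) ∧
    |dx (SS m) u| ≤ 2 / Real.pi * (lap (SS m) u / (2 * m)) := by
  obtain ⟨hsm, hform⟩ := hA5 hm
  have hm0 : (0 : ℝ) < 2 * m := by
    have : (2 : ℝ) ≤ m := by exact_mod_cast hm
    linarith
  have hlap0 : ∀ u ∈ PP, 0 ≤ lap (SS m) u := by
    intro u hu
    rw [(hform u hu).2.2]
    positivity
  refine ⟨⟨hsm, ?_, hlap0, ?_⟩, ?_⟩
  · intro u _
    exact pow_nonneg (norm_nonneg _) _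
  · intro u hu
    obtain ⟨h1, h2, h3⟩ := hform u hu
    have h4 := a6_normSq (hh u) (U' (hh u))⁻¹
    have h5 : SS m u = ‖hh u‖ ^ (2 * m - 2) * ‖hh u‖ ^ 2 := by
      rw [SS, ← pow_add]
      congr 1
      omega
    rw [h1, h2, h3, h5]
    apply le_of_eq
    have h6 : ∀ A x y : ℝ, (A * x) ^ 2 + (-(A * y)) ^ 2 = A ^ 2 * (x ^ 2 + y ^ 2) := by
      intro A x y
      ring
    rw [h6, h4]
    ring
  · intro u hu
    obtain ⟨h1, _, h3⟩ := hform u hu
    obtain ⟨hn, hU, _⟩ := hA4.2.1 u hu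
    obtain ⟨hs1, hs2, hs3, hs4⟩ := hA3 hn
    have hU'0 : U' (hh u) ≠ 0 := by
      intro h0
      have := hA2.1 (hh u) hn
      rw [h0] at this
      simp at this
    have hkey : dx (SS m) u = (lap (SS m) u / (2 * m)) *
        (8 / Real.pi ^ 2 * (Complex.arctan (hh u)).re) := by
      rw [h1, h3, a6_re _ _ hU'0, (hA1 hn).2.2, Complex.re_ofReal_mul]
      field_simp
    have hL : 0 ≤ lap (SS m) u / (2 * m) := div_nonneg (hlap0 u hu) hm0.le
    have hpi := Real.pi_pos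
    have hsign : Real.sign u.re = Real.sign (Complex.arctan (hh u)).re := by
      rw [hs4, ← hs3, hU]
    have habs : |dx (SS m) u| = (lap (SS m) u / (2 * m)) *
        (8 / Real.pi ^ 2 * |(Complex.arctan (hh u)).re|) := by
      rw [hkey, abs_mul, abs_of_nonneg hL, abs_mul, abs_of_nonneg (by positivity : (0:ℝ) ≤ 8 / Real.pi ^ 2)]
    have hsa : ∀ x : ℝ, |x| = Real.sign x * x := by
      intro x
      rcases lt_trichotomy x 0 with hx | hx | hx
      · rw [Real.sign_of_neg hx, abs_of_neg hx]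
        ring
      · rw [hx]
        simp
      · rw [Real.sign_of_pos hx, abs_of_pos hx]
        ring
    refine ⟨?_, ?_, ?_⟩
    · rw [habs, hsign, hkey, hsa]
      ring
    · intro hu0
      have hre : 0 < (hh u).re := by
        have e1 : Real.sign (hh u).re = 1 := by
          rw [← hs3, hU, Real.sign_of_pos hu0]
        rcases lt_trichotomy (hh u).re 0 with hx | hx | hx
        · rw [Real.sign_of_neg hx] at e1
          norm_num at e1
        · rw [hx, Real.sign_zero] at e1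
          norm_num at e1
        · exact hx
      have ha := (hs1 hre).1
      have hh0 : hh u ≠ 0 := by
        intro h0
        rw [h0] at hre
        simp at hre
      have hlp : 0 < lap (SS m) u := by
        rw [h3]
        have e1 : 0 < ‖hh u‖ := norm_pos_iff.2 hh0
        have e2 : 0 < ‖(U' (hh u))⁻¹‖ := norm_pos_iff.2 (inv_ne_zero hU'0)
        positivity
      rw [hkey]
      positivity
    · rw [habs]
      have e1 : 8 / Real.pi ^ 2 * |(Complex.arctan (hh u)).re| ≤ 2 / Real.pi := by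
        calc 8 / Real.pi ^ 2 * |(Complex.arctan (hh u)).re|
            ≤ 8 / Real.pi ^ 2 * (Real.pi / 4) := by
              apply mul_le_mul_of_nonneg_left hs2.le
              positivity
          _ = 2 / Real.pi := by
              field_simp
              norm_num
      calc lap (SS m) u / (2 * m) * (8 / Real.pi ^ 2 * |(Complex.arctan (hh u)).re|)
          ≤ lap (SS m) u / (2 * m) * (2 / Real.pi) := mul_le_mul_of_nonneg_left e1 hL
        _ = _ := by ring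

end Pool.Agent.H224R2.Mah
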